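import Pool.Agent.Q174.CD.Nest

/-!
# Null unions of unit segments with slopes in the Cantor set whose doubles are large
-/

open MeasureTheory Set Filter Topology
open Pool.Agent.Q174.CD

namespace Pool.Agent.Results.MP_60620c_an.CantorSegments

/-- The closed segment of length `2 * ρ`, slope `s` and midpoint `c` in the plane
(`(1, s) / √(1 + s²)` is the unit vector of slope `s`).  A unit segment is the case `ρ = 1/2`, its
concentric double is the case `ρ = 1`. -/
def seg (s : ℝ) (c : ℝ × ℝ) (ρ : ℝ) : Set (ℝ × ℝ) :=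
  {z | ∃ t ∈ Icc (-ρ) ρ, z = (c.1 + t * (1 / √(1 + s ^ 2)), c.2 + t * (s / √(1 + s ^ 2)))}

noncomputable def ep (k : ℕ) : ℝ := (1/32) * (1/2)^k

lemma ep_pos (k : ℕ) : 0 < ep k := by unfold ep; positivity

noncomputable def F0 : Fam where
  m := 0
  q := 0
  T := {(0, 0)}
  cell := by
    intro p hp s hs
    rw [Finset.mem_singleton] at hp
    subst hp
    simpa using hs
  sep := by
    intro p hp p' hp' hne
    rw [Finset.mem_singleton] at hp hp'
    exact absurd (hp.trans hp'.symm) hne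

noncomputable def sq : ℕ → Fam
  | 0 => F0
  | k+1 => Classical.choose (step (sq k) (ep_pos k))

lemma sq_spec (k : ℕ) : LS (sq (k+1)) ⊆ LS (sq k) ∧ (sq k).q + 1 ≤ (sq (k+1)).q ∧
    volume (R1 (LS (sq (k+1)))) ≤ ENNReal.ofReal (ep k) ∧
    volume (DD (sq k) \ DD (sq (k+1))) ≤ ENNReal.ofReal (ep k) :=
  Classical.choose_spec (step (sq k) (ep_pos k))

lemma sq_q (k : ℕ) : k ≤ (sq k).q := by
  induction k with
  | zero => exact Nat.zero_le _
  | succ k ih => have := (sq_spec k).2.1; omega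

lemma sq_anti : Antitone (fun k => LS (sq k)) := antitone_nat_of_succ_le fun k => (sq_spec k).1

lemma DD0_vol : ENNReal.ofReal (1/8) ≤ volume (DD (sq 0)) := by
  have hsub : Icc (1/4:ℝ) (3/8) ×ˢ Icc (0:ℝ) 1 ⊆ DD (sq 0) := by
    rintro z ⟨h1, h2⟩
    refine ⟨h1, (0, 0), Finset.mem_singleton_self _, ?_⟩
    show z.2 - 0 * z.1 ∈ Icc (0:ℝ) (0 + (1/3:ℝ)^0)
    simpa using h2
  refine le_trans ?_ (measure_mono hsub)
  rw [Measure.volume_eq_prod, Measure.prod_prod, Real.volume_Icc, Real.volume_Icc,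
    ← ENNReal.ofReal_mul (by norm_num)]
  apply ENNReal.ofReal_le_ofReal
  norm_num

lemma DD_vol (k : ℕ) : ENNReal.ofReal (1/16) ≤ volume (DD (sq k)) := by
  have h : ∀ k, ENNReal.ofReal (1/8) ≤ volume (DD (sq k)) + ENNReal.ofReal (1/16 * (1 - (1/2)^k)) := by
    intro k
    induction k with
    | zero => simpa using DD0_vol
    | succ k ih =>
      have h1 : volume (DD (sq k)) ≤ volume (DD (sq (k+1))) + ENNReal.ofReal (ep k) := by
        calc volume (DD (sq k)) ≤ volume (DD (sq (k+1)) ∪ (DD (sq k) \ DD (sq (k+1)))) := by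
              apply measure_mono
              intro z hz
              by_cases h : z ∈ DD (sq (k+1))
              · exact Or.inl h
              · exact Or.inr ⟨hz, h⟩
          _ ≤ volume (DD (sq (k+1))) + volume (DD (sq k) \ DD (sq (k+1))) := measure_union_le _ _
          _ ≤ _ := by gcongr; exact (sq_spec k).2.2.2
      have h2 : (0:ℝ) ≤ 1/16 * (1 - (1/2)^k) := by
        have : (1/2:ℝ)^k ≤ 1 := pow_le_one₀ (by norm_num) (by norm_num)
        linarith
      calc ENNReal.ofReal (1/8) ≤ volume (DD (sq k)) + ENNReal.ofReal (1/16 * (1 - (1/2)^k)) := ih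
        _ ≤ (volume (DD (sq (k+1))) + ENNReal.ofReal (ep k))
            + ENNReal.ofReal (1/16 * (1 - (1/2)^k)) := by gcongr
        _ = volume (DD (sq (k+1))) + ENNReal.ofReal (ep k + 1/16 * (1 - (1/2)^k)) := by
            rw [ENNReal.ofReal_add (ep_pos k).le h2, add_assoc]
        _ = volume (DD (sq (k+1))) + ENNReal.ofReal (1/16 * (1 - (1/2)^(k+1))) := by
            congr 2
            unfold ep
            rw [pow_succ]
            ring
  have h1 := h k
  have h2 : ENNReal.ofReal (1/16 * (1 - (1/2)^k)) ≤ ENNReal.ofReal (1/16) := by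
    apply ENNReal.ofReal_le_ofReal
    have : (0:ℝ) < (1/2)^k := by positivity
    linarith
  have h3 : ENNReal.ofReal (1/16) + ENNReal.ofReal (1/16)
      ≤ volume (DD (sq k)) + ENNReal.ofReal (1/16) := by
    rw [← ENNReal.ofReal_add (by norm_num) (by norm_num)]
    norm_num at h1 h2 ⊢
    exact h1.trans (by gcongr)
  exact (ENNReal.add_le_add_iff_right ENNReal.ofReal_ne_top).mp h3

/-- the limiting set of lines -/
def PP : Set (ℝ × ℝ) := ⋂ k, LS (sq k)

lemma PP_compact : IsCompact PP :=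
  (LS_compact (sq 0)).of_isClosed_subset (isClosed_iInter fun k => (LS_compact (sq k)).isClosed)
    (iInter_subset _ 0)

lemma PP_fst {l : ℝ × ℝ} (hl : l ∈ PP) : l.1 ∈ cantorSet := by
  obtain ⟨p, hp, ⟨s, hs, h1⟩, -⟩ := mem_iInter.mp hl 0
  rw [h1]
  exact (sq 0).cell p hp s hs

lemma PP_inj {l l' : ℝ × ℝ} (hl : l ∈ PP) (hl' : l' ∈ PP) (h : l.1 = l'.1) : l.2 = l'.2 := by
  have key : ∀ k : ℕ, |l.2 - l'.2| ≤ (1/3:ℝ)^k := by
    intro k
    obtain ⟨p, hp, ⟨s, hs, h1⟩, h2⟩ := mem_iInter.mp hl k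
    obtain ⟨p', hp', ⟨s', hs', h1'⟩, h2'⟩ := mem_iInter.mp hl' k
    have hpp : p = p' := by
      by_contra hne
      have h3 := (sq k).sep p hp p' hp' hne
      have e : p.1 - p'.1 = (1/3:ℝ)^(sq k).m * (s' - s) := by
        have : p.1 + (1/3:ℝ)^(sq k).m * s = p'.1 + (1/3:ℝ)^(sq k).m * s' := by rw [← h1, ← h1', h]
        linarith
      rw [e, abs_mul, abs_of_pos (by positivity)] at h3
      have h4 : |s' - s| ≤ 1 := by
        rw [abs_le]
        constructor <;> linarith [C_nonneg hs, C_le hs, C_nonneg hs', C_le hs']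
      have h5 : (1/3:ℝ)^(sq k).m * |s' - s| ≤ (1/3:ℝ)^(sq k).m * 1 := by gcongr
      linarith
    subst hpp
    have h6 : (1/3:ℝ)^(sq k).q ≤ (1/3:ℝ)^k :=
      pow_le_pow_of_le_one (by norm_num) (by norm_num) (sq_q k)
    rw [abs_le]
    constructor <;> linarith [h2.1, h2.2, h2'.1, h2'.2]
  have hlim : Tendsto (fun k : ℕ => (1/3:ℝ)^k) atTop (𝓝 0) :=
    tendsto_pow_atTop_nhds_zero_of_lt_one (by norm_num) (by norm_num)
  have := ge_of_tendsto' hlim key
  have := abs_nonpos_iff.mp this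
  linarith

lemma R1_null : volume (R1 PP) = 0 := by
  have h : ∀ k, volume (R1 PP) ≤ ENNReal.ofReal (ep k) := by
    intro k
    refine (measure_mono ?_).trans (sq_spec k).2.2.1
    rintro z ⟨hz, l, hl, h⟩
    exact ⟨hz, l, mem_iInter.mp hl (k+1), h⟩
  have hlim : Tendsto (fun k : ℕ => ENNReal.ofReal (ep k)) atTop (𝓝 0) := by
    have h1 : Tendsto ep atTop (𝓝 0) := by
      unfold ep
      simpa using (tendsto_pow_atTop_nhds_zero_of_lt_one (show (0:ℝ) ≤ 1/2 by norm_num)
        (by norm_num)).const_mul (1/32:ℝ)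
    simpa [Function.comp_def] using (ENNReal.continuous_ofReal.tendsto 0).comp h1
  exact le_antisymm (ge_of_tendsto' hlim h) bot_le

lemma R2_iInter : ⋂ k, R2 (LS (sq k)) ⊆ R2 PP := by
  intro z hz
  have hz0 := mem_iInter.mp hz 0
  refine ⟨hz0.1, ?_⟩
  set A : ℕ → Set (ℝ × ℝ) := fun k => LS (sq k) ∩ {l | z.2 = l.1 * z.1 + l.2} with hA
  have hcl : IsClosed {l : ℝ × ℝ | z.2 = l.1 * z.1 + l.2} :=
    isClosed_eq continuous_const (by fun_prop)
  have h1 : (⋂ k, A k).Nonempty := by
    refine IsCompact.nonempty_iInter_of_sequence_nonempty_isCompact_isClosed A ?_ ?_ ?_ ?_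
    · intro k
      exact inter_subset_inter_left _ (sq_spec k).1
    · intro k
      obtain ⟨-, l, hl, h⟩ := mem_iInter.mp hz k
      exact ⟨l, hl, h⟩
    · exact (LS_compact _).inter_right hcl
    · intro k
      exact (LS_compact _).isClosed.inter hcl
  obtain ⟨l, hl⟩ := h1
  exact ⟨l, mem_iInter.mpr fun k => (mem_iInter.mp hl k).1, (mem_iInter.mp hl 0).2⟩

lemma R2_vol : ENNReal.ofReal (1/16) ≤ volume (R2 PP) := by
  refine le_trans ?_ (measure_mono R2_iInter)
  have hanti : Antitone (fun k => R2 (LS (sq k))) := by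
    intro i j hij z hz
    obtain ⟨h1, l, hl, h2⟩ := hz
    exact ⟨h1, l, sq_anti hij hl, h2⟩
  have hlim := tendsto_measure_iInter_atTop (μ := (volume : Measure (ℝ × ℝ)))
    (s := fun k => R2 (LS (sq k)))
    (fun k => (R2_compact (LS_compact _)).measurableSet.nullMeasurableSet) hanti
    ⟨0, (R2_compact (LS_compact _)).measure_lt_top.ne⟩
  refine ge_of_tendsto' hlim fun k => ?_
  exact (DD_vol k).trans (measure_mono (DD_sub _))

/-- **Answer to Q1: yes.**  There are a compact set `S` of slopes in the triadic Cantor set and for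
every `s ∈ S` one unit segment of slope `s`, with midpoint `c s` depending continuously on `s`, such
that the union of the segments is Lebesgue null while the union of their concentric doubles has
positive Lebesgue measure. -/
theorem result : ∃ (S : Set ℝ) (c : ℝ → ℝ × ℝ), S ⊆ cantorSet ∧ IsCompact S ∧ ContinuousOn c S ∧
    volume (⋃ s ∈ S, seg s (c s) (1/2)) = 0 ∧ 0 < volume (⋃ s ∈ S, seg s (c s) 1) := by
  classical
  have hex : ∀ s ∈ Prod.fst '' PP, ∃ b : ℝ, (s, b) ∈ PP := by
    rintro s ⟨l, hl, rfl⟩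
    exact ⟨l.2, hl⟩
  choose! β hβ using hex
  have hS : Prod.fst '' PP ⊆ cantorSet := by
    rintro s ⟨l, hl, rfl⟩
    exact PP_fst hl
  have hβc : ContinuousOn β (Prod.fst '' PP) := by
    rw [continuousOn_iff_isClosed]
    intro K hK
    refine ⟨Prod.fst '' (PP ∩ Prod.snd ⁻¹' K), ?_, ?_⟩
    · exact ((PP_compact.inter_right (hK.preimage continuous_snd)).image continuous_fst).isClosed
    · ext s
      constructor
      · rintro ⟨h1, h2⟩
        exact ⟨⟨(s, β s), ⟨hβ s h2, h1⟩, rfl⟩, h2⟩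
      · rintro ⟨⟨l, ⟨hl, hlK⟩, rfl⟩, h2⟩
        refine ⟨?_, h2⟩
        have := PP_inj (hβ l.1 h2) hl rfl
        simp only at this
        show β l.1 ∈ K
        rw [this]
        exact hlK
  refine ⟨Prod.fst '' PP, fun s => (1/2 + 1/2 * (1 / √(1 + s ^ 2)),
    s * (1/2 + 1/2 * (1 / √(1 + s ^ 2))) + β s), hS, PP_compact.image continuous_fst, ?_, ?_, ?_⟩
  · have h1 : Continuous (fun s : ℝ => 1/2 + 1/2 * (1 / √(1 + s ^ 2))) := by
      have : ∀ s : ℝ, √(1 + s ^ 2) ≠ 0 := fun s => (Real.sqrt_pos.mpr (by positivity)).ne'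
      fun_prop (disch := exact this _)
    exact h1.continuousOn.prodMk ((continuous_id.mul h1).continuousOn.add hβc)
  · refine measure_mono_null ?_ R1_null
    intro z hz
    simp only [mem_iUnion, exists_prop] at hz
    obtain ⟨s, hs, t, ht, rfl⟩ := hz
    have hsq : 1 ≤ √(1 + s ^ 2) := by
      rw [Real.one_le_sqrt]; nlinarith [sq_nonneg s]
    have he0 : 0 < 1 / √(1 + s ^ 2) := by positivity
    have he1 : 1 / √(1 + s ^ 2) ≤ 1 := by
      rw [div_le_one (by positivity)]; exact hsq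
    have hsd : s / √(1 + s ^ 2) = s * (1 / √(1 + s ^ 2)) := by ring
    refine ⟨⟨?_, ?_⟩, (s, β s), hβ s hs, ?_⟩
    · simp only; nlinarith [ht.1]
    · simp only; nlinarith [ht.2]
    · simp only; rw [hsd]; ring
  · refine lt_of_lt_of_le ?_ (R2_vol.trans (measure_mono ?_))
    · exact ENNReal.ofReal_pos.mpr (by norm_num)
    · rintro z ⟨hz1, l, hl, hz2⟩
      have hs : l.1 ∈ Prod.fst '' PP := ⟨l, hl, rfl⟩
      refine mem_biUnion hs ?_
      have hb := PP_inj (hβ l.1 hs) hl rfl
      simp only at hb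
      set s := l.1 with hsdef
      have hsC := hS hs
      have hs0 := C_nonneg hsC
      have hs1 := C_le hsC
      have hsq : 1 ≤ √(1 + s ^ 2) := by
        rw [Real.one_le_sqrt]; nlinarith [sq_nonneg s]
      have hsq2 : √(1 + s ^ 2) ≤ 3/2 := by
        rw [Real.sqrt_le_left (by norm_num)]; nlinarith
      have hne : √(1 + s ^ 2) ≠ 0 := by positivity
      refine ⟨(z.1 - 1/2) * √(1 + s ^ 2) - 1/2, ⟨?_, ?_⟩, ?_⟩
      · nlinarith [hz1.1, hz1.2]
      · nlinarith [hz1.1, hz1.2]
      · refine Prod.ext ?_ ?_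
        · simp only; field_simp; ring
        · simp only
          rw [hz2, hb]
          field_simp
          ring

end Pool.Agent.Results.MP_60620c_an.CantorSegments
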